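import Pool.Agent.X116.ScvC
import Pool.Agent.X116.ScvF

/-!
# MP_d2274e_an : functions semiconvex and semiconcave with modulus on cone-free convex sets

Answers to the four cases of Q1: (c) and (d) always yes; (a) and (b) no in general.
The notions `IsModulus`, `Semiconvex`, `Semiconcave`, `IsC1`, `ConeFree` are in
`Pool.Agent.X116.ScvA`.
-/

namespace Pool.Agent.Results.MP_d2274e_an.AllFourCases

open Pool.Agent.X116.Scv Set Filter Topology

/-- `n`-dimensional Euclidean space -/
abbrev En (n : ℕ) := EuclideanSpace ℝ (Fin n)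

/-- `G` is an unbounded, open, convex, cone-free subset of `ℝⁿ` -/
def Admissible {n : ℕ} (G : Set (En n)) : Prop :=
  IsOpen G ∧ Convex ℝ G ∧ ¬ Bornology.IsBounded G ∧ ConeFree G

/-- there is `f` on `G`, both `ω`-semiconvex and `ω`-semiconcave, with `f ∉ C^{1,ω}(G)` -/
def HasBad {n : ℕ} (ω : ℝ → ℝ) (G : Set (En n)) : Prop :=
  ∃ f : En n → ℝ, Semiconvex ω G f ∧ Semiconcave ω G f ∧ ¬ IsC1 ω G f

/-- `liminf_{t→0+} ω(t)/t > 0` -/
def LowerAtZero (ω : ℝ → ℝ) : Prop := ∃ c : ℝ, 0 < c ∧ ∀ᶠ t : ℝ in 𝓝[>] 0, c ≤ ω t / t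

/-- `liminf_{t→∞} ω(t)/t = 0` (for `ω ≥ 0`) -/
def LowerAtTop (ω : ℝ → ℝ) : Prop := ∀ ε : ℝ, 0 < ε → ∃ᶠ t : ℝ in atTop, ω t / t < ε

/-- For every `n ≥ 2`:
* (cases (c), (d)) for every admissible `G` and every `0 < α < 1` there is `f` on `G`, both
  `t^α`-semiconvex and `t^α`-semiconcave, with `f ∉ C^{1,α}(G)`; in particular for `ω(t) = √t`;
* (cases (a), (b)) this fails for general moduli: there are an admissible `G` and a concave modulus
  `ω` with `liminf_{t→0+} ω(t)/t > 0` and `lim_{t→∞} ω(t)/t = 0` such that every `f` on `G` that is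
  `ω`-semiconvex and `ω`-semiconcave is in `C^{1,ω}(G)`. -/
theorem result (n : ℕ) (hn : 2 ≤ n) :
    (∀ (G : Set (En n)) (α : ℝ), Admissible G → 0 < α → α < 1 → HasBad (fun t => t ^ α) G) ∧
    (∀ G : Set (En n), Admissible G → HasBad Real.sqrt G) ∧
    (∃ (G : Set (En n)) (ω : ℝ → ℝ), Admissible G ∧ IsModulus ω ∧ ConcaveOn ℝ (Ici 0) ω ∧
      LowerAtZero ω ∧ LowerAtTop ω ∧ Tendsto (fun t => ω t / t) atTop (𝓝 0) ∧
      ∀ f : En n → ℝ, Semiconvex ω G f → Semiconcave ω G f → IsC1 ω G f) := by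
  have hc : ∀ (G : Set (En n)) (α : ℝ), Admissible G → 0 < α → α < 1 →
      HasBad (fun t => t ^ α) G := by
    rintro G α ⟨h1, h2, h3, h4⟩ h5 h6
    exact exists_bad h1 h2 h3 h4 h5 h6
  refine ⟨hc, ?_, ?_⟩
  · intro G hG
    have h := hc G (1 / 2) hG (by norm_num) (by norm_num)
    have e : (fun t : ℝ => t ^ (1 / 2 : ℝ)) = Real.sqrt := by
      funext t; rw [Real.sqrt_eq_rpow]
    rwa [e] at h
  · -- the paraboloid
    set i0 : Fin n := ⟨0, by omega⟩
    set i1 : Fin n := ⟨1, by omega⟩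
    have hne : i0 ≠ i1 := by
      intro h
      have := congrArg Fin.val h
      simp [i0, i1] at this
    set e : En n := EuclideanSpace.single i0 (1 : ℝ) with he
    have hen : ‖e‖ = 1 := by rw [he]; simp
    have hdim : ∃ v : En n, v ≠ 0 ∧ (inner ℝ e v : ℝ) = 0 := by
      refine ⟨EuclideanSpace.single i1 (1 : ℝ), ?_, ?_⟩
      · intro h
        have h2 : ‖(EuclideanSpace.single i1 (1 : ℝ) : En n)‖ = 1 := by simp
        rw [h, norm_zero] at h2
        norm_num at h2
      · rw [he, EuclideanSpace.inner_single_left]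
        simp [hne]
    refine ⟨paraboloid e, lw, ⟨parab_open, parab_convex, ?_, parab_coneFree hen hdim⟩,
      lw_modulus, lw_concave, lw_small, ?_, lw_large, ?_⟩
    · intro hb
      rw [isBounded_iff_forall_norm_le] at hb
      obtain ⟨C, hC⟩ := hb
      set s : ℝ := max 1 (C + 1)
      have hs1 : 1 ≤ s := le_max_left _ _
      have hs2 : C + 1 ≤ s := le_max_right _ _
      have hm : (s ^ 2) • e ∈ paraboloid e := parab_ball hen hs1 _ (by
        rw [sub_self, norm_zero]; positivity)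
      have := hC _ hm
      rw [norm_smul, hen, mul_one, Real.norm_of_nonneg (by positivity)] at this
      nlinarith
    · intro ε hε
      exact (lw_large.eventually (gt_mem_nhds hε)).frequently
    · intro f h1 h2
      exact parab_C1 hen lw_modulus (fun c t hc ht => lw_mul hc ht) (fun t ht => lw_sq ht) h1 h2

end Pool.Agent.Results.MP_d2274e_an.AllFourCases
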